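import Mathlib
import Pool.Agent.H.MP_7ca032_co.Poly

set_option autoImplicit false

namespace Pool.Agent.Results.MP_7ca032_co.Yes

/-- A polytope: the convex hull of a finite nonempty set. -/
def IsPolytope {d : ℕ} (P : Set (EuclideanSpace ℝ (Fin d))) : Prop :=
  ∃ S : Set (EuclideanSpace ℝ (Fin d)), S.Finite ∧ S.Nonempty ∧ P = convexHull ℝ S

/-- The dimension of the affine hull of a (nonempty) set. -/
noncomputable def dim {d : ℕ} (X : Set (EuclideanSpace ℝ (Fin d))) : ℕ :=
  Module.finrank ℝ (vectorSpan ℝ X)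

/-- Vertices are the extreme points. -/
def IsVertex {d : ℕ} (P : Set (EuclideanSpace ℝ (Fin d))) (v : EuclideanSpace ℝ (Fin d)) : Prop :=
  v ∈ P.extremePoints ℝ

/-- Facets are the nonempty faces (exposed subsets) of dimension `dim P - 1`. -/
def IsFacet {d : ℕ} (P F : Set (EuclideanSpace ℝ (Fin d))) : Prop :=
  IsExposed ℝ P F ∧ F.Nonempty ∧ dim F + 1 = dim P

/-- A vertex-facet assignment: a matching of non-incident vertex-facet pairs that covers all
vertices or all facets. -/
def HasAssignment {d : ℕ} (P : Set (EuclideanSpace ℝ (Fin d))) : Prop :=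
  (∃ f : {v // IsVertex P v} → {F // IsFacet P F},
    Function.Injective f ∧ ∀ v, v.1 ∉ (f v).1) ∨
  (∃ g : {F // IsFacet P F} → {v // IsVertex P v},
    Function.Injective g ∧ ∀ F, (g F).1 ∉ F.1)

/-- The face lattice: all faces (exposed subsets, including the empty set and `P`), ordered
by inclusion. -/
abbrev Faces {d : ℕ} (P : Set (EuclideanSpace ℝ (Fin d))) :=
  {F : Set (EuclideanSpace ℝ (Fin d)) // IsExposed ℝ P F}

/-- `P` is combinatorially equivalent to a free join of two polytopes. -/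
def IsFreeJoin {d : ℕ} (P : Set (EuclideanSpace ℝ (Fin d))) : Prop :=
  ∃ (e : ℕ) (P₁ P₂ : Set (EuclideanSpace ℝ (Fin e))), IsPolytope P₁ ∧ IsPolytope P₂ ∧
    dim (P₁ ∪ P₂) = dim P₁ + dim P₂ + 1 ∧
    Nonempty (Faces P ≃o Faces (convexHull ℝ (P₁ ∪ P₂)))

open Pool.Agent.H.MP_7ca032_co in
theorem result : ∃ P : Set (EuclideanSpace ℝ (Fin 7)), IsPolytope P ∧ affineSpan ℝ P = ⊤ ∧
    ¬ HasAssignment P ∧ ¬ IsFreeJoin P := by
  refine ⟨PP, ⟨Set.range V, Set.finite_range V, ⟨V 0, 0, rfl⟩, rfl⟩, ?_, ?_, ?_⟩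
  · rw [AffineSubspace.affineSpan_eq_top_iff_vectorSpan_eq_top_of_nonempty ℝ _ _ ⟨V 0, V_mem 0⟩]
    exact vspan_top
  · have hv : ∀ k, IsVertex PP (V k) := fun k =>
      isExtreme_singleton.mp (V_exposed k).isExtreme
    rintro (⟨f, hf, hn⟩ | ⟨g, hg, hn⟩)
    · have : ∀ k : Fin 12, ∃ i : Fin 11,
          (f ⟨V (Fin.castLE (by norm_num) k), hv _⟩).1 = FF ⟨i.val + 6, by omega⟩ := by
        intro k
        obtain ⟨h1, h2, h3⟩ := (f ⟨V (Fin.castLE (by norm_num) k), hv _⟩).2
        obtain ⟨i, hi⟩ := facet_eq h1 h2 (by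
          unfold dim at h3
          exact Nat.succ_injective (h3.trans dim_PP))
        have h4 := hn ⟨V (Fin.castLE (by norm_num) k), hv _⟩
        rw [hi, V_mem_FF] at h4
        have h5 : ¬ i.val < 6 := fun c => h4 (val_low i _ c k.isLt)
        refine ⟨⟨i.val - 6, by omega⟩, ?_⟩
        rw [hi]; congr 1; apply Fin.ext; simp only; omega
      choose I hI using this
      have hinj : Function.Injective I := by
        intro k k' h
        have := hf (Subtype.ext ((hI k).trans (h ▸ (hI k').symm)))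
        exact Fin.castLE_injective _ (V_inj (congrArg Subtype.val this))
      have := Fintype.card_le_of_injective I hinj
      simp at this
    · have hF : ∀ i : Fin 6, IsFacet PP (FF (Fin.castLE (by norm_num) i)) := fun i =>
        ⟨FF_exposed _, ⟨V 0, (V_mem_FF _ 0).mpr (val_low _ 0 i.isLt (by decide))⟩, by
          unfold dim
          rw [dim_PP, dim_FF _ i.isLt]⟩
      have : ∀ i : Fin 6, ∃ k : Fin 5, (g ⟨_, hF i⟩).1 = V ⟨k.val + 12, by omega⟩ := by
        intro i
        obtain ⟨k, hk⟩ := extremePoints_convexHull_subset (g ⟨_, hF i⟩).2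
        have h4 := hn ⟨_, hF i⟩
        rw [← hk, V_mem_FF] at h4
        have h5 : ¬ k.val < 12 := fun c => h4 (val_low _ k i.isLt c)
        refine ⟨⟨k.val - 12, by omega⟩, ?_⟩
        rw [← hk]; congr 1; apply Fin.ext; simp only; omega
      choose K hK using this
      have hinj : Function.Injective K := by
        intro i i' h
        have := hg (Subtype.ext ((hK i).trans (h ▸ (hK i').symm)))
        exact Fin.castLE_injective _ (FF_anti (congrArg Subtype.val this).subset)
      have := Fintype.card_le_of_injective K hinj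
      simp at this
  · rintro ⟨e, P1, P2, ⟨S1, -, n1, rfl⟩, ⟨S2, -, n2, rfl⟩, hd, ⟨φ⟩⟩
    obtain ⟨A, B, hA, hB, a, b, h1, h2⟩ := transfer PP _ _ (convex_convexHull ℝ S1)
      (convex_convexHull ℝ S2) (n1.mono (subset_convexHull ℝ _)) (n2.mono (subset_convexHull ℝ _))
      hd φ
    exact no_split A B hA hB a b h1 h2

end Pool.Agent.Results.MP_7ca032_co.Yes
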